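import Mathlib
import Pool.Agent.Helper73.LF.PiAdic
import Pool.Agent.Helper73.QC.Fun

/-! Project RC (MP_1fe969_ag). The ring generated by the roots of unity of order a power of `r` and its
residue map to the field with `r` elements. -/

set_option autoImplicit false

namespace Pool.Agent.Helper73.BC

open Pool.Agent.Helper73.LF Pool.Agent.Helper73.KT Pool.Agent.Helper73.QC

theorem residue {L : Type} [Field L] [CharZero L] {r k : ℕ} (hr : r.Prime) :
    ∃ (S : Subring L) (ρ : S →+* ZMod r), ∀ c : L, c ^ r ^ k = 1 → ∃ hc : c ∈ S, ρ ⟨c, hc⟩ = 1 := by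
  classical
  haveI : Fact r.Prime := ⟨hr⟩
  obtain ⟨M, hM, hrM⟩ := exists_residue (L := L) r
  let : Field (integralClosure ℤ L ⧸ M) := Ideal.Quotient.field M
  have hch : CharP (integralClosure ℤ L ⧸ M) r := by
    rw [CharP.charP_iff_prime_eq_zero hr]
    have := Ideal.Quotient.eq_zero_iff_mem.2 hrM
    rwa [map_natCast] at this
  set φ : integralClosure ℤ L →+* (integralClosure ℤ L ⧸ M) := Ideal.Quotient.mk M with hφ
  let ι : ZMod r →+* (integralClosure ℤ L ⧸ M) := ZMod.castHom dvd_rfl _
  have hι : Function.Injective ι := ι.injective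
  let S : Subring L := Subring.closure {c : L | c ^ r ^ k = 1}
  have hint : ∀ c : L, c ^ r ^ k = 1 → IsIntegral ℤ c := fun c hc =>
    IsIntegral.of_pow (pow_pos hr.pos k) (by rw [hc]; exact isIntegral_one)
  have hSint : ∀ x ∈ S, IsIntegral ℤ x := by
    intro x hx
    have h1 : S ≤ (integralClosure ℤ L).toSubring :=
      Subring.closure_le.2 fun c hc => hint c hc
    exact h1 hx
  have hone : ∀ (c : L) (hc : c ^ r ^ k = 1), φ ⟨c, hint c hc⟩ = 1 := by
    intro c hc
    apply eq_one_of_pow (r := r) (e := k)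
    rw [← map_pow]
    have h1 : (⟨c, hint c hc⟩ : integralClosure ℤ L) ^ r ^ k = 1 := Subtype.ext hc
    rw [h1, map_one]
  have key : ∀ (x : L) (hx : x ∈ S), ∃ z : ZMod r, ι z = φ ⟨x, hSint x hx⟩ := by
    intro x hx
    induction hx using Subring.closure_induction with
    | mem c hc => exact ⟨1, by rw [map_one, hone c hc]⟩
    | zero => exact ⟨0, by rw [map_zero]; exact (map_zero φ).symm⟩
    | one => exact ⟨1, by rw [map_one]; exact (map_one φ).symm⟩
    | add a b ha hb iha ihb =>
      obtain ⟨z, hz⟩ := iha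
      obtain ⟨z', hz'⟩ := ihb
      exact ⟨z + z', by rw [map_add, hz, hz', ← map_add]; rfl⟩
    | neg a ha iha =>
      obtain ⟨z, hz⟩ := iha
      exact ⟨-z, by rw [map_neg, hz, ← map_neg]; rfl⟩
    | mul a b ha hb iha ihb =>
      obtain ⟨z, hz⟩ := iha
      obtain ⟨z', hz'⟩ := ihb
      exact ⟨z * z', by rw [map_mul, hz, hz', ← map_mul]; rfl⟩
  choose f hf using key
  refine ⟨S, ⟨⟨⟨fun x => f x x.2, ?_⟩, ?_⟩, ?_, ?_⟩, ?_⟩
  · apply hι
    rw [hf, map_one]
    exact map_one φ
  · intro a b
    apply hι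
    rw [hf, map_mul, hf, hf, ← map_mul]
    rfl
  · apply hι
    change ι (f _ _) = ι 0
    rw [hf, map_zero]
    exact map_zero φ
  · intro a b
    apply hι
    change ι (f _ _) = ι (f _ _ + f _ _)
    rw [hf, map_add, hf, hf, ← map_add]
    rfl
  · intro c hc
    refine ⟨Subring.subset_closure hc, ?_⟩
    apply hι
    change ι (f _ _) = ι 1
    rw [hf, map_one]
    exact hone c hc

end Pool.Agent.Helper73.BC
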